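import Pool.Agent.Helper4.PQS.St0

/-!
Project PQS (MP_2b6189_al), module TNS: tensor decomposition of an integral modular datum along a fusion subset.
-/

set_option autoImplicit false

open scoped BigOperators ComplexConjugate
open Finset

namespace Pool.Agent.Helper55.PQS

open Pool.Agent.Helper4.PQS Pool.Agent.Helper46.WG

/-- the product of an object of `F` and an object of the centralizer -/
theorem exists_prod {I : Type} [Fintype I] [DecidableEq I] {M : IntegralModularDatum I} (hM : M.NoSym) {F : Finset I}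
    (hF : M.IsFusion F) {i j : I} (hi : i ∈ F) (hj : j ∈ M.cent F) : ∃ k, M.d k = M.d i * M.d j ∧
      ∀ l, M.s k l = M.s i l * M.s j l / M.d l := by
  classical
  have hC := M.radical hM hF
  have h1 : ∑ V, M.N i (M.dual i) V * M.N j (M.dual j) V = ∑ Z, M.N i j Z ^ 2 := M.toMD.sum_common i j
  have h3 : ∀ V, V ≠ M.unit → M.N i (M.dual i) V * M.N j (M.dual j) V = 0 := by
    intro V hV
    by_contra hne
    have ha : M.N i (M.dual i) V ≠ 0 := fun h => hne (by rw [h, zero_mul])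
    have hb : M.N j (M.dual j) V ≠ 0 := fun h => hne (by rw [h, mul_zero])
    have h5 := hF.mul_mem i hi _ (hF.dual_mem i hi) V ha
    have h6 := (M.cent_fusion F).mul_mem j hj _ ((M.cent_fusion F).dual_mem j hj) V hb
    exact hV (Finset.mem_singleton.1 (hC (Finset.mem_inter.2 ⟨h5, h6⟩)))
  rw [Finset.sum_eq_single M.unit (fun V _ hV => h3 V hV) (fun h => absurd (Finset.mem_univ _) h),
    M.N_dual_unit, M.N_dual_unit, if_pos rfl, if_pos rfl, one_mul] at h1
  have hex : ∃ k, M.N i j k ≠ 0 := by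
    by_contra hcon
    push Not at hcon
    have : ∑ Z, M.N i j Z ^ 2 = 0 := Finset.sum_eq_zero fun Z _ => by rw [hcon Z]; rfl
    omega
  obtain ⟨k, hk⟩ := hex
  have h4 : ∀ x, x ≠ k → M.N i j x = 0 := by
    intro x hx
    by_contra hne
    rw [← Finset.add_sum_erase _ _ (Finset.mem_univ k)] at h1
    have h5 : M.N i j x ^ 2 ≤ ∑ y ∈ Finset.univ.erase k, M.N i j y ^ 2 :=
      Finset.single_le_sum (f := fun y => M.N i j y ^ 2) (fun _ _ => Nat.zero_le _)
        (Finset.mem_erase.2 ⟨hx, Finset.mem_univ _⟩)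
    have h6 : 0 < M.N i j x ^ 2 := pow_pos (Nat.pos_of_ne_zero hne) 2
    have h7 : 0 < M.N i j k ^ 2 := pow_pos (Nat.pos_of_ne_zero hk) 2
    omega
  have h5 : M.N i j k = 1 := by
    rw [Finset.sum_eq_single k (fun x _ hx => by rw [h4 x hx]; rfl) (fun h => absurd (Finset.mem_univ _) h)] at h1
    exact (Nat.pow_eq_one.1 h1.symm).resolve_right two_ne_zero
  have hN : ∀ x, M.N i j x = if x = k then 1 else 0 := by
    intro x
    split_ifs with hx
    · rw [hx, h5]
    · exact h4 x hx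
  refine ⟨k, ?_, fun l => ?_⟩
  · have h6 := M.sumN_d i j
    simp_rw [hN] at h6
    simpa using h6
  · have h6 := M.sumN i j l
    simp_rw [hN] at h6
    have h7 : ∑ x, ((if x = k then 1 else 0 : ℕ) : ℂ) * M.s x l = M.s k l := by simp
    rw [h7] at h6
    exact h6

/-- proportional rows on a fusion subset with trivial radical belong to the same object -/
theorem inj_aux {I : Type} [Fintype I] [DecidableEq I] {M : IntegralModularDatum I} {F : Finset I}
    (hF : M.IsFusion F) (hC : F ∩ M.cent F ⊆ {M.unit}) {i i' : I} (hi : i ∈ F) (hi' : i' ∈ F) {a a' : ℂ}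
    (ha' : a' ≠ 0) (h : ∀ l ∈ F, M.s i l * a = M.s i' l * a') : i = i' := by
  by_contra hne
  have h1 := M.orth_sub hF hC hi hi'
  rw [if_neg hne] at h1
  have h2 := M.orth_sub hF hC hi' hi'
  rw [if_pos rfl] at h2
  have h3 : a' * ((∑ l ∈ F, M.d l ^ 2 : ℕ) : ℂ) = 0 := by
    rw [← h2, Finset.mul_sum]
    calc ∑ l ∈ F, a' * (M.s i' l * conj (M.s i' l)) = ∑ l ∈ F, a * (M.s i l * conj (M.s i' l)) :=
          Finset.sum_congr rfl fun l hl => by
            calc a' * (M.s i' l * conj (M.s i' l)) = (M.s i' l * a') * conj (M.s i' l) := by ring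
              _ = (M.s i l * a) * conj (M.s i' l) := by rw [h l hl]
              _ = a * (M.s i l * conj (M.s i' l)) := by ring
      _ = 0 := by rw [← Finset.mul_sum, h1, mul_zero]
  rcases mul_eq_zero.1 h3 with h4 | h4
  · exact ha' h4
  · have h5 : (∑ l ∈ F, M.d l ^ 2) = 0 := by exact_mod_cast h4
    have h6 : M.d M.unit ^ 2 ≤ ∑ l ∈ F, M.d l ^ 2 :=
      Finset.single_le_sum (f := fun l => M.d l ^ 2) (fun _ _ => Nat.zero_le _) hF.unit_mem
    rw [M.d_unit] at h6
    omega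

/-- TNS (statement `StTNS` of project PQS) -/
theorem hTNS : StTNS := by
  intro I _ _ M hM F hF X
  classical
  have hC := M.radical hM hF
  have hC' := M.radical hM (M.cent_fusion F)
  have hex : ∀ p : I × I, ∃ k, p.1 ∈ F → p.2 ∈ M.cent F → (M.d k = M.d p.1 * M.d p.2 ∧
      ∀ l, M.s k l = M.s p.1 l * M.s p.2 l / M.d l) := by
    intro p
    by_cases h1 : p.1 ∈ F
    · by_cases h2 : p.2 ∈ M.cent F
      · obtain ⟨k, hk⟩ := exists_prod hM hF h1 h2
        exact ⟨k, fun _ _ => hk⟩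
      · exact ⟨p.1, fun _ h => absurd h h2⟩
    · exact ⟨p.1, fun h => absurd h h1⟩
  choose f hf using hex
  -- the rows of the products
  have hrow : ∀ p : I × I, p.1 ∈ F → p.2 ∈ M.cent F → ∀ l ∈ F, M.s (f p) l = M.s p.1 l * M.d p.2 := by
    intro p h1 h2 l hl
    rw [(hf p h1 h2).2 l, M.mem_cent.1 h2 l hl]
    have := M.d_ne l
    field_simp
  have hrow' : ∀ p : I × I, p.1 ∈ F → p.2 ∈ M.cent F → ∀ l ∈ M.cent F, M.s (f p) l = M.s p.2 l * M.d p.1 := by
    intro p h1 h2 l hl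
    rw [(hf p h1 h2).2 l, M.s_symm p.1 l, M.mem_cent.1 hl p.1 h1]
    have := M.d_ne l
    field_simp
  have hinj : Set.InjOn f ((F ×ˢ M.cent F : Finset (I × I)) : Set (I × I)) := by
    intro p hp p' hp' h
    have hp1 := Finset.mem_product.1 (Finset.mem_coe.1 hp)
    have hp2 := Finset.mem_product.1 (Finset.mem_coe.1 hp')
    refine Prod.ext ?_ ?_
    · refine inj_aux hF hC hp1.1 hp2.1 (M.d_ne p'.2) (a := (M.d p.2 : ℂ)) fun l hl => ?_
      rw [← hrow p hp1.1 hp1.2 l hl, ← hrow p' hp2.1 hp2.2 l hl, h]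
    · refine inj_aux (M.cent_fusion F) hC' hp1.2 hp2.2 (M.d_ne p'.1) (a := (M.d p.1 : ℂ)) fun l hl => ?_
      rw [← hrow' p hp1.1 hp1.2 l hl, ← hrow' p' hp2.1 hp2.2 l hl, h]
  have hsum : ∑ k ∈ (F ×ˢ M.cent F).image f, M.d k ^ 2 = M.gdim := by
    rw [Finset.sum_image hinj, ← M.dim_cent hF, Finset.sum_mul_sum, Finset.sum_product]
    refine Finset.sum_congr rfl fun i hi => Finset.sum_congr rfl fun j hj => ?_
    rw [(hf (i, j) hi hj).1, mul_pow]
  have hX : X ∈ (F ×ˢ M.cent F).image f := by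
    by_contra hX
    have h1 : ∑ k ∈ insert X ((F ×ˢ M.cent F).image f), M.d k ^ 2 ≤ ∑ k, M.d k ^ 2 :=
      Finset.sum_le_sum_of_subset (Finset.subset_univ _)
    rw [Finset.sum_insert hX, hsum] at h1
    have h2 : 0 < M.d X ^ 2 := pow_pos (M.d_pos X) 2
    have h3 : M.gdim = ∑ k, M.d k ^ 2 := rfl
    omega
  obtain ⟨p, hp, rfl⟩ := Finset.mem_image.1 hX
  have hp' := Finset.mem_product.1 hp
  exact ⟨p.1, hp'.1, p.2, hp'.2, (hf p hp'.1 hp'.2).1⟩

end Pool.Agent.Helper55.PQS
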